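import Pool.Agent.R164.Coins5

/-!
# Generalized n-queens coin placements exist for all parameters

For every `n ≥ 4` and every `0 ≤ c ≤ n` there is a set of `n c` cells of the `n × n` board with at
most `c` cells on every row, column and diagonal of either direction.

The sets are unions of classes `j - 2 i = κ` modulo `n`, chosen balanced modulo `2`, `3` or `6`
according to the residue of `n`, together with a few classes used on one half of the rows only.
-/

set_option autoImplicit false

open Finset

namespace Pool.Agent.Results.MP_712a2d_co.CoinPlacements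

/-- `S` is an `(n, c)`-placement: a set of `n * c` cells `(i, j)`, `0 ≤ i, j < n`, such that every
row `i = a`, every column `j = b`, every diagonal `i + j = k` and every diagonal `i - j = d`
contains at most `c` cells of `S`. -/
structure IsPlacement (n c : ℕ) (S : Finset (ℕ × ℕ)) : Prop where
  cells : ∀ p ∈ S, p.1 < n ∧ p.2 < n
  card : S.card = n * c
  rows : ∀ a : ℕ, (S.filter (fun p => p.1 = a)).card ≤ c
  columns : ∀ b : ℕ, (S.filter (fun p => p.2 = b)).card ≤ c
  antidiagonals : ∀ k : ℕ, (S.filter (fun p => p.1 + p.2 = k)).card ≤ c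
  diagonals : ∀ d : ℤ, (S.filter (fun p => (p.1 : ℤ) - (p.2 : ℤ) = d)).card ≤ c

/-- a check of finitely many lines suffices -/
theorem of_finite {n c : ℕ} {S : Finset (ℕ × ℕ)} (h1 : ∀ p ∈ S, p.1 < n ∧ p.2 < n)
    (h2 : S.card = n * c) (h3 : ∀ a ∈ range n, (S.filter (fun p => p.1 = a)).card ≤ c)
    (h4 : ∀ b ∈ range n, (S.filter (fun p => p.2 = b)).card ≤ c)
    (h5 : ∀ k ∈ range (2 * n), (S.filter (fun p => p.1 + p.2 = k)).card ≤ c)
    (h6 : ∀ e ∈ range (2 * n), (S.filter (fun p => p.1 + n = p.2 + e)).card ≤ c) :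
    ∃ S : Finset (ℕ × ℕ), R164.Coins.IsPlacement n c S := by
  have hempty : ∀ (L : ℕ × ℕ → Prop) [DecidablePred L], (∀ p ∈ S, ¬ L p) →
      (S.filter L).card ≤ c := by
    intro L _ h
    rw [filter_eq_empty_iff.2 h, card_empty]
    exact Nat.zero_le _
  refine ⟨S, h1, h2, fun a => ?_, fun b => ?_, fun k => ?_, fun d => ?_⟩
  · by_cases ha : a < n
    · exact h3 a (mem_range.2 ha)
    · exact hempty _ fun p hp => by have := h1 p hp; omega
  · by_cases ha : b < n
    · exact h4 b (mem_range.2 ha)
    · exact hempty _ fun p hp => by have := h1 p hp; omega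
  · by_cases ha : k < 2 * n
    · exact h5 k (mem_range.2 ha)
    · exact hempty _ fun p hp => by have := h1 p hp; omega
  · by_cases ha : 0 ≤ d + n ∧ d + n < 2 * n
    · have h7 := h6 (d + n).toNat (mem_range.2 (by omega))
      have h8 : S.filter (fun p => (p.1 : ℤ) - (p.2 : ℤ) = d) =
          S.filter (fun p => p.1 + n = p.2 + (d + n).toNat) := by
        refine filter_congr fun p hp => ?_
        have := h1 p hp
        omega
      rw [h8]
      exact h7
    · exact hempty _ fun p hp => by have := h1 p hp; omega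

theorem six_three_explicit : ∃ S : Finset (ℕ × ℕ), R164.Coins.IsPlacement 6 3 S :=
  of_finite (S := {(0, 2), (0, 3), (0, 4), (1, 2), (1, 3), (1, 4), (2, 0), (2, 1), (2, 5), (3, 3),
    (3, 4), (3, 5), (4, 0), (4, 1), (4, 5), (5, 0), (5, 1), (5, 2)})
    (by decide) (by decide) (by decide) (by decide) (by decide) (by decide)

theorem six_four_explicit : ∃ S : Finset (ℕ × ℕ), R164.Coins.IsPlacement 6 4 S :=
  of_finite (S := {(0, 0), (0, 1), (0, 2), (0, 3), (1, 0), (1, 1), (1, 2), (1, 3), (2, 0), (2, 1),
    (2, 4), (2, 5), (3, 0), (3, 1), (3, 4), (3, 5), (4, 2), (4, 3), (4, 4), (4, 5), (5, 2), (5, 3),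
    (5, 4), (5, 5)})
    (by decide) (by decide) (by decide) (by decide) (by decide) (by decide)

theorem six_dvd {u c : ℕ} (hu : 1 ≤ u) (hc : c ≤ 6 * u) :
    ∃ S : Finset (ℕ × ℕ), R164.Coins.IsPlacement (6 * u) c S := by
  have h : c % 6 = 0 ∨ c % 6 = 1 ∨ c % 6 = 2 ∨ c % 6 = 3 ∨ c % 6 = 4 ∨ c % 6 = 5 := by omega
  rcases h with h | h | h | h | h | h
  · have := R164.Coins.six_zero (u := u) (t := c / 6) (by omega)
    rwa [show 6 * (c / 6) = c by omega] at this
  · have := R164.Coins.six_one (u := u) (t := c / 6) (by omega)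
    rwa [show 6 * (c / 6) + 1 = c by omega] at this
  · have := R164.Coins.six_two (u := u) (t := c / 6) (by omega)
    rwa [show 6 * (c / 6) + 2 = c by omega] at this
  · rcases Nat.lt_or_ge u 2 with h2 | h2
    · have e1 : u = 1 := by omega
      have e2 : c = 3 := by omega
      rw [e1, e2]
      exact six_three_explicit
    · have := R164.Coins.six_three (u := u) (t := c / 6) h2 (by omega)
      rwa [show 6 * (c / 6) + 3 = c by omega] at this
  · rcases Nat.lt_or_ge u 2 with h2 | h2
    · have e1 : u = 1 := by omega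
      have e2 : c = 4 := by omega
      rw [e1, e2]
      exact six_four_explicit
    · have := R164.Coins.six_four (u := u) (t := c / 6) h2 (by omega)
      rwa [show 6 * (c / 6) + 4 = c by omega] at this
  · have := R164.Coins.six_five (u := u) (t := c / 6) (by omega)
    rwa [show 6 * (c / 6) + 5 = c by omega] at this

theorem three_odd {m c : ℕ} (h2 : m % 2 = 1) (hm : 3 ≤ m) (hc : c ≤ 3 * m) :
    ∃ S : Finset (ℕ × ℕ), R164.Coins.IsPlacement (3 * m) c S := by
  have h : c % 3 = 0 ∨ c % 3 = 1 ∨ c % 3 = 2 := by omega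
  rcases h with h | h | h
  · have := R164.Coins.case_three_zero (m := m) (q := c / 3) h2 (by omega)
    rwa [show 3 * (c / 3) = c by omega] at this
  · rcases Nat.eq_zero_or_pos (c / 3) with h3 | h3
    · have := R164.Coins.case_queens (u := m / 2) (by omega)
      rwa [show 6 * (m / 2) + 3 = 3 * m by omega, show 1 = c by omega] at this
    · have := R164.Coins.case_three_one (m := m) (q := c / 3) h2 hm h3 (by omega)
      rwa [show 3 * (c / 3) + 1 = c by omega] at this
  · have := R164.Coins.case_three_two (m := m) (q := c / 3) h2 (by omega)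
    rwa [show 3 * (c / 3) + 2 = c by omega] at this

theorem even_not_three {h c : ℕ} (hh : 2 ≤ h) (h3 : h % 3 ≠ 0) (hc : c ≤ 2 * h) :
    ∃ S : Finset (ℕ × ℕ), R164.Coins.IsPlacement (2 * h) c S := by
  rcases Nat.mod_two_eq_zero_or_one c with h2 | h2
  · have := R164.Coins.case_even_even (h := h) (x := c / 2) (by omega) (by omega)
    rwa [show 2 * (c / 2) = c by omega] at this
  · rcases (by omega : h % 3 = 1 ∨ h % 3 = 2) with h4 | h4
    · have := R164.Coins.case_even_two (h := h) (x := c / 2) h4 (by omega) (by omega)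
      rwa [show 2 * (c / 2) + 1 = c by omega] at this
    · have := R164.Coins.case_even_four (h := h) (x := c / 2) h4 (by omega)
      rwa [show 2 * (c / 2) + 1 = c by omega] at this

theorem main {n c : ℕ} (hn : 4 ≤ n) (hc : c ≤ n) :
    ∃ S : Finset (ℕ × ℕ), R164.Coins.IsPlacement n c S := by
  by_cases h3 : n % 3 = 0
  · by_cases h2 : n % 2 = 0
    · have := six_dvd (u := n / 6) (c := c) (by omega) (by omega)
      rwa [show 6 * (n / 6) = n by omega] at this
    · have := three_odd (m := n / 3) (c := c) (by omega) (by omega) (by omega)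
      rwa [show 3 * (n / 3) = n by omega] at this
  · by_cases h2 : n % 2 = 0
    · have := even_not_three (h := n / 2) (c := c) (by omega) (by omega) (by omega)
      rwa [show 2 * (n / 2) = n by omega] at this
    · exact R164.Coins.case_odd (by omega) h3 hc

/-- For every `n ≥ 4` and every `c` with `0 ≤ c ≤ n`, an `(n, c)`-placement exists. -/
theorem result (n c : ℕ) (hn : 4 ≤ n) (hc : c ≤ n) : ∃ S : Finset (ℕ × ℕ), IsPlacement n c S := by
  obtain ⟨S, h1, h2, h3, h4, h5, h6⟩ := main hn hc
  exact ⟨S, h1, h2, h3, h4, h5, h6⟩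

end Pool.Agent.Results.MP_712a2d_co.CoinPlacements
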